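import Pool.Agent.H28.GN.T3

/-!
Theorem G, row BDW: the bad words on the multiples of one prime, for one box.
-/

set_option autoImplicit false

open MeasureTheory ProbabilityTheory Filter Topology Finset
open scoped Nat ENNReal

namespace Pool.Agent.H5.GN

open Pool.Agent.H28.GN
open Pool.Agent.H28.LF (Wd ng Xi Yi shX shY btY flY xiY CompY ExY wX Ix LX)

theorem ng_ng (b : Bool × Bool) : ng (ng b) = b := by
  rcases b with ⟨b1, b2⟩
  simp [ng]

theorem shX_iter (L : ℕ) (ξ : Xi) (t : ℤ) : (shX^[L] ξ) t = ξ (t + L) := by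
  induction L generalizing ξ with
  | zero => simp
  | succ n ih =>
    rw [Function.iterate_succ_apply, ih]
    change ξ (t + n + 1) = ξ (t + ((n + 1 : ℕ) : ℤ))
    congr 1
    push_cast
    ring

theorem wX_iter (L : ℕ) (ξ : Xi) (i : ℕ) : wX (shX^[L] ξ) i = wX ξ (i + L) := by
  unfold wX
  rw [shX_iter]
  congr 2
  push_cast
  ring

theorem norm_cv {J : ℕ} (ω : Fin J → Bool) (z : ℂ) : ‖cv ω z‖ = ‖z‖ := by
  unfold cv
  split_ifs
  · rfl
  · exact RCLike.norm_conj z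

theorem norm_st {J : ℕ} {u : Bool × Bool → ℂ} (hu : ∀ b, ‖u b‖ = 1)
    (w : (Fin J → Bool) → ℕ → Bool × Bool) (i : ℕ) : ‖st u w i‖ = 1 := by
  unfold st
  rw [norm_prod]
  exact Finset.prod_eq_one fun ω _ => by rw [norm_cv, hu]

theorem norm_Pr {J : ℕ} {u : Bool × Bool → ℂ} (hu : ∀ b, ‖u b‖ = 1)
    (w : (Fin J → Bool) → ℕ → Bool × Bool) (l k : ℕ) : ‖Pr u w l k‖ = 1 := by
  unfold Pr
  rw [norm_prod]
  exact Finset.prod_eq_one fun i _ => norm_st hu w _

theorem norm_mm {J : ℕ} {u : Bool × Bool → ℂ} (hu : ∀ b, ‖u b‖ = 1) {K : ℕ} (hK : 0 < K)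
    (w : (Fin J → Bool) → ℕ → Bool × Bool) (l : ℕ) : ‖mm u K w l‖ ≤ 1 := by
  unfold mm
  have hK' : (0 : ℝ) < K := by exact_mod_cast hK
  rw [norm_div, Complex.norm_natCast, div_le_one hK']
  refine (norm_sum_le _ _).trans ?_
  rw [Finset.sum_congr rfl fun k _ => norm_Pr hu w l (k + 1)]
  simp

theorem measurable_st {J : ℕ} (u : Bool × Bool → ℂ) (c : ℕ) (t : Fin J → Bool → ℕ) (i : ℕ) :
    Measurable fun ξ : Xi => st u (bl c t (wX ξ)) i := by
  unfold st bl wX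
  refine Finset.measurable_prod _ fun ω _ => ?_
  have h1 : Measurable (fun b : Bool × Bool => cv ω (u b)) := measurable_of_countable _
  have h2 : Measurable (fun ξ : Xi => (ξ (((i + ps c t ω : ℕ) : ℤ) + 1)).1) :=
    measurable_fst.comp (measurable_pi_apply _)
  exact h1.comp h2

theorem measurable_Pr {J : ℕ} (u : Bool × Bool → ℂ) (c : ℕ) (t : Fin J → Bool → ℕ) (l k : ℕ) :
    Measurable fun ξ : Xi => Pr u (bl c t (wX ξ)) l k := by
  unfold Pr
  exact Finset.measurable_prod _ fun i _ => measurable_st u c t _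

theorem measurable_mm {J : ℕ} (u : Bool × Bool → ℂ) (c : ℕ) (t : Fin J → Bool → ℕ) (K l : ℕ) :
    Measurable fun ξ : Xi => mm u K (bl c t (wX ξ)) l := by
  unfold mm
  exact (Finset.measurable_sum _ fun k _ => measurable_Pr u c t _ _).div_const _

theorem st_shift {J : ℕ} (u : Bool × Bool → ℂ) (c : ℕ) (t : Fin J → Bool → ℕ) (L i : ℕ)
    (ξ : Xi) : st u (bl c t (wX (shX^[L] ξ))) i = st u (bl c t (wX ξ)) (L + i) := by
  unfold st bl
  refine Finset.prod_congr rfl fun ω _ => ?_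
  rw [wX_iter]
  congr 3
  ring

theorem mm_shift {J : ℕ} (u : Bool × Bool → ℂ) (c : ℕ) (t : Fin J → Bool → ℕ) (K L : ℕ)
    (ξ : Xi) : mm u K (bl c t (wX (shX^[L] ξ))) 0 = mm u K (bl c t (wX ξ)) L := by
  unfold mm Pr
  congr 1
  refine Finset.sum_congr rfl fun k _ => Finset.prod_congr rfl fun i _ => ?_
  rw [st_shift, zero_add]

theorem pf_BDW (hN : T_NUP) (hE : T_MEG) : T_BDW := by
  intro u ix c J Q L H p α z ν t hu hix hc hp hQ hα hz hzα hαq
  obtain ⟨hprob, herg, hreal, -⟩ := hN ν p hc hp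
  obtain ⟨-, m, hm, hmq, hmst, hmK⟩ := hE J u c (tn t) (nuP p ν) hu hprob herg
  have hp0 : (0 : ℝ) ≤ p := Nat.cast_nonneg p
  have hνprob := hc.prob
  obtain ⟨μ, hμ⟩ : ∃ μ : Measure Xi, μ = nuP p ν := ⟨_, rfl⟩
  rw [← hμ] at hprob herg hreal hmq hmst hmK hαq ⊢
  obtain ⟨q, hq⟩ : ∃ q : ℝ, q = qT u c (tn t) μ := ⟨_, rfl⟩
  rw [← hq] at hmq hmK hαq ⊢
  obtain ⟨G, hG⟩ : ∃ G : Set Xi, G = {ξ | GdG u (Real.sqrt α / 2) z Q L
    (bl c (tn t) (wX ξ))} := ⟨_, rfl⟩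
  have hGm : MeasurableSet G := by
    rw [hG]
    unfold GdG
    exact (measurableSet_le measurable_const (measurable_mm u c (tn t) Q 0).norm).inter
      (measurableSet_le (((measurable_Pr u c (tn t) 0 L).mul (measurable_mm u c (tn t) Q L)).sub
        (measurable_mm u c (tn t) Q 0)).norm measurable_const)
  -- the inclusion
  have hsub : flY p ∩ {ω | Wd shY (aG ix) (c * J * H + (L + Q)) p ω ∈
      Lft (po t) (BadG J u ix (Real.sqrt α / 2) z Q L)} ⊆
      (flY p ∩ xiY p ⁻¹' Gᶜ) ∪ ⋃ j ∈ Icc 1 (c * J * H + (L + Q)), (flY p ∩ ExY p j) := by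
    rintro ω ⟨hf, hω⟩
    by_cases hex : ∃ j ∈ Icc 1 (c * J * H + (L + Q)), ω ∈ ExY p j
    · right
      obtain ⟨j, hj, hj'⟩ := hex
      exact Set.mem_biUnion hj ⟨hf, hj'⟩
    left
    refine ⟨hf, ?_⟩
    intro hg
    apply hω
    refine ⟨bl c (tn t) (wX (xiY p ω)), ?_, ?_⟩
    · intro pl
      have h1 : btY (shY^[p * (((po t pl : Fin _) : ℕ) + 1)] ω) =
          ng (xiY p ω ((((po t pl : Fin _) : ℕ) + 1 : ℕ) : ℤ)).1 := by
        by_contra hcon
        apply hex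
        refine ⟨((po t pl : Fin _) : ℕ) + 1, mem_Icc.2 ⟨by omega, ?_⟩, hcon⟩
        have := (po t pl).2
        omega
      change ix (ng (btY (shY^[p * (((po t pl : Fin _) : ℕ) + 1)] ω))) = _
      rw [h1, ng_ng]
      rfl
    · have h2 : xiY p ω ∈ G := hg
      rw [hG] at h2
      exact h2
  -- the main bound
  have hsqrt : 0 ≤ Real.sqrt α := Real.sqrt_nonneg α
  have hq0 : 0 ≤ q := le_trans hα.le hαq
  obtain ⟨Nn, hNn⟩ : ∃ Nn : Set Xi, Nn = {ξ | (z / 2) ^ 2 ≤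
    ‖mm u Q (bl c (tn t) (wX ξ)) 0 - m ξ‖ ^ 2} := ⟨_, rfl⟩
  have hNm : MeasurableSet Nn := by
    rw [hNn]
    exact measurableSet_le measurable_const
      (((measurable_mm u c (tn t) Q 0).sub hm).norm.pow_const 2)
  have hcheb : (z / 2) ^ 2 * μ.real Nn ≤
      ∫ ξ, ‖mm u Q (bl c (tn t) (wX ξ)) 0‖ ^ 2 ∂μ - q := by
    rw [← hmK Q hQ, hNn]
    refine mul_meas_ge_le_integral_of_nonneg (Filter.Eventually.of_forall fun ξ => by positivity)
      ?_ _
    refine Integrable.of_bound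
      (((measurable_mm u c (tn t) Q 0).sub hm).norm.pow_const 2).aestronglyMeasurable
      ((1 + Real.sqrt q) ^ 2) ?_
    filter_upwards [hmq] with ξ hξ
    rw [Real.norm_of_nonneg (by positivity)]
    have h1 : ‖m ξ‖ = Real.sqrt q := by
      rw [← hξ, Real.sqrt_sq (norm_nonneg _)]
    refine pow_le_pow_left₀ (norm_nonneg _) ((norm_sub_le _ _).trans ?_) 2
    rw [h1]
    exact add_le_add_left (norm_mm hu hQ _ _) _
  have hmp : MeasurePreserving shX μ μ := herg.toMeasurePreserving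
  have hmpL : MeasurePreserving (shX^[L]) μ μ := hmp.iterate L
  have hPrL : ∀ n : ℕ, ∀ᵐ ξ ∂μ, Pr u (bl c (tn t) (wX ξ)) 0 n * m (shX^[n] ξ) = m ξ := by
    intro n
    induction n with
    | zero =>
      refine Filter.Eventually.of_forall fun ξ => ?_
      simp [Pr]
    | succ n ih =>
      have h1 := (hmp.iterate n).quasiMeasurePreserving.ae hmst
      filter_upwards [ih, h1] with ξ h2 h3
      rw [← h2, ← h3]
      unfold Pr
      rw [Finset.prod_range_succ, zero_add, st_shift, add_zero, Function.iterate_succ_apply']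
      ring
  have hae : ∀ᵐ ξ ∂μ, ξ ∈ Gᶜ → ξ ∈ Nn ∪ (shX^[L]) ⁻¹' Nn := by
    filter_upwards [hmq, hPrL L] with ξ h1 h2 hξ
    by_contra hcon
    rw [Set.mem_union, not_or] at hcon
    obtain ⟨h3, h4⟩ := hcon
    rw [Set.mem_preimage] at h4
    rw [hNn, Set.mem_ofPred_eq, not_le] at h3 h4
    have h3' : ‖mm u Q (bl c (tn t) (wX ξ)) 0 - m ξ‖ < z / 2 :=
      lt_of_pow_lt_pow_left₀ 2 (by linarith) h3
    have h4' : ‖mm u Q (bl c (tn t) (wX ξ)) L - m (shX^[L] ξ)‖ < z / 2 := by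
      rw [← mm_shift]
      exact lt_of_pow_lt_pow_left₀ 2 (by linarith) h4
    apply hξ
    rw [hG]
    have h5 : ‖m ξ‖ = Real.sqrt q := by
      rw [← h1, Real.sqrt_sq (norm_nonneg _)]
    have h6 : Real.sqrt α ≤ Real.sqrt q := Real.sqrt_le_sqrt hαq
    constructor
    · have h7 : ‖m ξ‖ ≤ ‖mm u Q (bl c (tn t) (wX ξ)) 0‖ +
          ‖mm u Q (bl c (tn t) (wX ξ)) 0 - m ξ‖ := by
        have h8 : m ξ = mm u Q (bl c (tn t) (wX ξ)) 0 -
          (mm u Q (bl c (tn t) (wX ξ)) 0 - m ξ) := by ring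
        conv_lhs => rw [h8]
        exact norm_sub_le _ _
      linarith
    · have h7 : Pr u (bl c (tn t) (wX ξ)) 0 L * mm u Q (bl c (tn t) (wX ξ)) L -
          mm u Q (bl c (tn t) (wX ξ)) 0 =
          Pr u (bl c (tn t) (wX ξ)) 0 L * (mm u Q (bl c (tn t) (wX ξ)) L - m (shX^[L] ξ)) -
          (mm u Q (bl c (tn t) (wX ξ)) 0 - m ξ) := by
        rw [mul_sub, h2]
        ring
      rw [h7]
      refine (norm_sub_le _ _).trans ?_
      rw [norm_mul, norm_Pr hu, one_mul]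
      linarith
  have hmain : μ.real Gᶜ ≤ 2 * μ.real Nn := by
    have h1 : μ.real Gᶜ ≤ μ.real (Nn ∪ (shX^[L]) ⁻¹' Nn) := by
      rw [measureReal_def, measureReal_def]
      exact ENNReal.toReal_mono (measure_ne_top _ _) (measure_mono_ae hae)
    have h2 : μ.real ((shX^[L]) ⁻¹' Nn) = μ.real Nn := by
      rw [measureReal_def, measureReal_def, hmpL.measure_preimage hNm.nullMeasurableSet]
    have h3 := measureReal_union_le (μ := μ) Nn ((shX^[L]) ⁻¹' Nn)
    rw [h2] at h3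
    linarith
  have hfin : μ.real Gᶜ ≤ 8 / z ^ 2 *
      (∫ ξ, ‖mm u Q (bl c (tn t) (wX ξ)) 0‖ ^ 2 ∂μ - q) := by
    have hz2 : 0 < z ^ 2 := by positivity
    rw [div_mul_eq_mul_div, le_div_iff₀ hz2]
    nlinarith
  have h1 : ν.real (flY p ∩ {ω | Wd shY (aG ix) (c * J * H + (L + Q)) p ω ∈
      Lft (po t) (BadG J u ix (Real.sqrt α / 2) z Q L)}) ≤
      ν.real (flY p ∩ xiY p ⁻¹' Gᶜ) +
        ∑ j ∈ Icc 1 (c * J * H + (L + Q)), ν.real (flY p ∩ ExY p j) := by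
    refine (measureReal_mono hsub).trans ?_
    refine (measureReal_union_le _ _).trans ?_
    exact add_le_add_right (measureReal_biUnion_finset_le _ _) _
  have h2 := hreal Gᶜ hGm.compl
  calc p * ν.real (flY p ∩ {ω | Wd shY (aG ix) (c * J * H + (L + Q)) p ω ∈
      Lft (po t) (BadG J u ix (Real.sqrt α / 2) z Q L)})
      ≤ p * (ν.real (flY p ∩ xiY p ⁻¹' Gᶜ) +
        ∑ j ∈ Icc 1 (c * J * H + (L + Q)), ν.real (flY p ∩ ExY p j)) :=
        mul_le_mul_of_nonneg_left h1 hp0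
    _ = μ.real Gᶜ + ∑ j ∈ Icc 1 (c * J * H + (L + Q)), p * ν.real (flY p ∩ ExY p j) := by
        rw [mul_add, h2, Finset.mul_sum]
    _ ≤ _ := add_le_add_left hfin _

end Pool.Agent.H5.GN
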